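import Pool.Agent.H.MP_c9564b_pr.A

/-! Expected recovery time with two sample sizes lies between the two fixed-size expectations. -/

open MeasureTheory ProbabilityTheory Finset
open scoped ENNReal

namespace Pool.Agent.Results.MP_c9564b_pr.Mono

/-- the matching `σ` is recovered by the first `t` samples -/
def Rec {n : ℕ} (σ : Fin n ≃ Fin n) (S : ℕ → Finset (Fin n)) (t : ℕ) : Prop :=
  (∀ c, ∃ i < t, c ∈ S i) ∧ ∀ τ : Fin n ≃ Fin n, (∀ i < t, (S i).image τ = (S i).image σ) → τ = σ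

/-- recovery time -/
noncomputable def T {n : ℕ} (σ : Fin n ≃ Fin n) (S : ℕ → Finset (Fin n)) : ℝ≥0∞ :=
  ⨅ (t : ℕ) (_ : Rec σ S t), (t : ℝ≥0∞)

/-- uniform law on `k`-subsets -/
noncomputable def U (n k : ℕ) : Measure (Finset (Fin n)) := uniformOn {S | #S = k}

/-- expected recovery time for independent samples with law `ν` -/
noncomputable def ET {n : ℕ} (σ : Fin n ≃ Fin n) (ν : Measure (Finset (Fin n))) : ℝ≥0∞ :=
  ∫⁻ S, T σ S ∂Measure.infinitePi fun _ => ν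

theorem result (n k₁ k₂ : ℕ) (p : ℝ) (σ : Fin n ≃ Fin n) (h2 : k₁ < k₂) (h3 : 2 * k₂ ≤ n)
    (hp : p ∈ Set.Icc (0 : ℝ) 1) :
    ET σ (U n k₂) ≤ ET σ (ENNReal.ofReal p • U n k₁ + ENNReal.ofReal (1 - p) • U n k₂) ∧
      ET σ (ENNReal.ofReal p • U n k₁ + ENNReal.ofReal (1 - p) • U n k₂) ≤ ET σ (U n k₁) :=
  Pool.Agent.H.MP_c9564b_pr.main n k₁ k₂ p σ h2 h3 hp

end Pool.Agent.Results.MP_c9564b_pr.Mono
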